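import Pool.Agent.KS6_1.RF.BinLie4

set_option autoImplicit false

namespace Pool.Agent.Results.MP_6e2f2f_al.InfiniteAxiomaticRank

/-- The value at `f` of the nonassociative polynomial `p` with coefficients in `S` and variables
in `V` (a finite formal combination of nonassociative monomials). -/
def value {S V A : Type} [CommRing S] [NonUnitalNonAssocRing A] [Module S A] (f : V → A)
    (p : FreeMagma V →₀ S) : A :=
  Finsupp.sum p (fun m c => c • FreeMagma.lift f m)

/-- `R` is a binary-Lie algebra over `F`: every `F`-subalgebra generated by two elements is a Lie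
algebra. -/
def IsBinaryLie (F R : Type) [CommRing F] [NonUnitalNonAssocRing R] [Module F R]
    [IsScalarTower F R R] [SMulCommClass F R R] : Prop :=
  ∀ a b : R, ∀ x ∈ NonUnitalAlgebra.adjoin F ({a, b} : Set R),
    ∀ y ∈ NonUnitalAlgebra.adjoin F ({a, b} : Set R),
    ∀ z ∈ NonUnitalAlgebra.adjoin F ({a, b} : Set R),
      x * x = 0 ∧ (x * y) * z + (y * z) * x + (z * x) * y = 0

/-- The identities of `R` with coefficients in `S` have a finite basis: all of them follow, in
the class of all nonassociative `S`-algebras, from finitely many of them. For `S = ℤ` these are the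
ring identities. -/
def FinitelyBased (S R : Type) [CommRing S] [NonUnitalNonAssocRing R] [Module S R] : Prop :=
  ∃ B : Finset (FreeMagma ℕ →₀ S), (∀ s ∈ B, ∀ f : ℕ → R, value f s = 0) ∧
    ∀ p : FreeMagma ℕ →₀ S, (∀ f : ℕ → R, value f p = 0) →
      ∀ (A : Type) [NonUnitalNonAssocRing A] [Module S A] [IsScalarTower S A A]
        [SMulCommClass S A A],
        (∀ s ∈ B, ∀ g : ℕ → A, value g s = 0) → ∀ g : ℕ → A, value g p = 0

open Pool.Agent.KS6_1.BinLie in
theorem not_fb (F : Type) [Field F] [Fintype F] [CharP F 2] (S : Type) [CommRing S] [Algebra S F]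
    [Module S (GG F)] [IsScalarTower S F (GG F)] [∀ M, Module S (HH F M)]
    [∀ M, IsScalarTower S F (HH F M)] [∀ M, IsScalarTower S (HH F M) (HH F M)]
    [∀ M, SMulCommClass S (HH F M) (HH F M)] : ¬ FinitelyBased S (GG F) := by
  rintro ⟨B, hB, hall⟩
  obtain ⟨n, hn⟩ : ∃ n : ℕ, ∀ s ∈ B, ∀ m ∈ s.support, mbound m ≤ n := by
    refine ⟨B.sup (fun s => s.support.sup mbound), ?_⟩
    intro s hs m hm
    exact le_trans (Finset.le_sup (f := mbound) hm)
      (Finset.le_sup (f := fun s : FreeMagma ℕ →₀ S => s.support.sup mbound) hs)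
  obtain ⟨q, hq, g, hg⟩ := fails (F := F) S (4 * n + 1)
  exact hg (hall q hq (HH F (4 * n + 1)) (fun s hs g' =>
    model_scalar S n (4 * n + 1) (by omega) s (hn s hs) (hB s hs) g') g)

theorem commZ (A : Type) [NonUnitalNonAssocRing A] : SMulCommClass ℤ A A := inferInstance

/-- Over EVERY finite field `F` of characteristic two there is a finite binary-Lie algebra `R`
whose identities have no finite basis, neither as a ring nor as an algebra over `F`, and which has
infinite axiomatic rank: for every `n` there is a finite `F`-algebra `A` which satisfies all the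
identities of `R` (with coefficients in `F`) in `n` variables, but fails some identity of `R`
(even one with integer coefficients). -/
theorem result (F : Type) [Field F] [Finite F] [CharP F 2] :
    ∃ (R : Type) (_ : NonUnitalNonAssocRing R) (_ : Module F R) (_ : IsScalarTower F R R)
      (_ : SMulCommClass F R R),
      Finite R ∧ IsBinaryLie F R ∧ ¬ FinitelyBased ℤ R ∧ ¬ FinitelyBased F R ∧
      ∀ n : ℕ, ∃ (A : Type) (_ : NonUnitalNonAssocRing A) (_ : Module F A)
        (_ : IsScalarTower F A A) (_ : SMulCommClass F A A), Finite A ∧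
        (∀ p : FreeMagma (Fin n) →₀ F, (∀ f : Fin n → R, value f p = 0) →
          ∀ g : Fin n → A, value g p = 0) ∧
        ∃ q : FreeMagma ℕ →₀ ℤ, (∀ f : ℕ → R, value f q = 0) ∧ ∃ g : ℕ → A, value g q ≠ 0 := by
  have := Fintype.ofFinite F
  have : ∀ M, SMulCommClass ℤ (Pool.Agent.KS6_1.BinLie.HH F M) (Pool.Agent.KS6_1.BinLie.HH F M) :=
    fun M => commZ _
  refine ⟨Pool.Agent.KS6_1.BinLie.GG F, inferInstance, inferInstance, inferInstance,
    inferInstance, inferInstance, ?_, not_fb F ℤ, not_fb F F, fun n =>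
    ⟨Pool.Agent.KS6_1.BinLie.HH F (4 * n + 1), inferInstance, inferInstance, inferInstance,
      inferInstance, inferInstance, fun p hp g => Pool.Agent.KS6_1.BinLie.model_fin n p hp g,
      Pool.Agent.KS6_1.BinLie.fails ℤ (4 * n + 1)⟩⟩
  intro a b x hx y hy z hz
  exact ⟨Pool.Agent.KS6_1.BinLie.sq_zero x, Pool.Agent.KS6_1.BinLie.jacobi
    (Pool.Agent.KS6_1.BinLie.InS.of_adjoin hx) (Pool.Agent.KS6_1.BinLie.InS.of_adjoin hy)
    (Pool.Agent.KS6_1.BinLie.InS.of_adjoin hz)⟩

end Pool.Agent.Results.MP_6e2f2f_al.InfiniteAxiomaticRank
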